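import Pool.Agent.E8helper53.MXH.Lie

/-!
# All tuples of fibres of mixed hypergeometric families
-/

set_option autoImplicit false

open PowerSeries Module

namespace Pool.Agent.E8helper53.MXH

open Pool.Agent.Y119.HY Pool.Agent.E8helper53.HGM Pool.Agent.Results.MP_cbf1af_ag.AllTuplesDegenerating
open Pool.Agent.Y113 hiding Bm
open Pool.Agent.E8helper43.MX (zb Cls Sym qg_zb ok_zb QL_zb sdc_Hq')
open Pool.Agent.E8helper43.HS (BD Eqv QL Hk)

variable {n : ℕ}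

/-- **the rank** -/
theorem rk_le' {Q : Polynomial ℚ} (hQ : WQ n Q) {r : ℕ} (hr : r ≤ finrank ℂ (Lie (Yf (cm (Am n)) (Hc n Q)))) :
    r ≤ rank (Hm n Q).transpose := by
  classical
  set Z := (Hm n Q).transpose with hZ
  set U : Set ℕ := {d : ℕ | ∃ T : Fin d → Fin n × Fin n, AlgebraicIndependent (Polynomial ℚ) (fun i => Z (T i).1 (T i).2)} with hU
  have hbdd : BddAbove U := by
    refine ⟨Fintype.card (Fin n × Fin n), ?_⟩
    rintro d ⟨T, hT⟩
    have h1 : Function.Injective T := by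
      intro i j hij
      exact hT.injective (by
        show Z (T i).1 (T i).2 = Z (T j).1 (T j).2
        rw [hij])
    simpa using Fintype.card_le_of_injective T h1
  have hne : U.Nonempty := by
    refine ⟨0, fun i => i.elim0, ?_⟩
    rw [algebraicIndependent_empty_type_iff]
    intro p q hpq
    have h1 : ((p : Polynomial ℚ) : ℚ⟦X⟧) = (q : ℚ⟦X⟧) := by
      simpa [PowerSeries.algebraMap_apply'] using hpq
    exact_mod_cast h1
  obtain ⟨T, hT⟩ : rank Z ∈ U := Nat.sSup_mem hne hbdd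
  refine hr.trans ?_
  refine rank_ge (N := cm (Am n)) Ac_nil (Hs := fun i j => Hm n Q i j) (fun i j r h0 h1 => SR_Hm hQ i j r h0 h1) (fun x hx hx1 => ?_)
    (fun x hx hx1 => ?_) (fun i => ((T i).2, (T i).1)) hT fun e he => ?_
  · unfold Yf
    rw [Matrix.mul_assoc, E_mul_neg Ac_nil, mul_one]
    ext i j
    rw [Matrix.of_apply, Hf_E]
  · obtain ⟨G, hG⟩ := exists_sol (nil_dual (Ac_nil (n := n))) (-(cm (Bm n Q)).transpose)
    exact ⟨_, dual_pair Ac_nil (sol_c hQ) hG (real_mem_Lens hx hx1)⟩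
  · have h1 := he.comp _ (finSuccEquiv (rank Z)).injective
    have h2 : rank Z + 1 ≤ rank Z := le_csSup hbdd ⟨(Fin.cons (e.2, e.1) T : Fin (rank Z + 1) → Fin n × Fin n), by
      convert h1 using 1
      funext i
      refine Fin.cases ?_ (fun i => ?_) i
      · simp [finSuccEquiv_zero, hZ]
      · simp [finSuccEquiv_succ, hZ]⟩
    omega

open Classical in
/-- the dimension of the group -/
noncomputable def dm (m : ℕ) {n : ℕ} (β : Fin n → ℚ) : ℕ := m * n + if Sym β then n * (n + 1) / 2 else n * n - 1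

lemma wq_zb (m : ℕ) {β : Fin n → ℚ} (h : BD β) : WQ (m + n) (QL (zb m β)) := by
  have h1 := qg_zb m h
  exact ⟨h1.two, h1.monic, h1.deg⟩

theorem dm_le (m : ℕ) {β : Fin n → ℚ} (h : BD β) (hd : (¬ Eqv β fun j => -β j) ∨ Sym β) :
    dm m β ≤ rank (Hm (m + n) (QL (zb m β))).transpose := by
  classical
  refine rk_le' (wq_zb m h) ?_
  unfold dm
  split_ifs with hs
  · exact dim_SP m h hs
  · exact dim_SL m h hd hs

lemma sdc_zb (m : ℕ) {β : Fin n → ℚ} (h : BD β) (i j : Fin (m + n)) : SDc (Hm (m + n) (QL (zb m β)) i j) := by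
  have h1 := sdc_Hq' (ok_zb (m := m) h) (qg_zb m h) i j
  have h2 : (Hm (m + n) (QL (zb m β)) i j) = PowerSeries.mk fun k => Hq (m + n) (QL (zb m β)) k i j := by
    ext k
    rw [coeff_Hm, coeff_mk]
  rw [h2]
  exact h1

/-- **All tuples.** -/
theorem all_tuples (m : ℕ) {β : Fin n → ℚ} (h : BD β) (hd : (¬ Eqv β fun j => -β j) ∨ Sym β) :
    ∃ G : ℕ, ∀ k δ D : ℕ,
      (∃ (c : ℝ) (M₀ : ℕ), 0 < c ∧ ∀ M : ℕ, M₀ ≤ M → ∀ Ω : Matrix (Fin (m + n)) (Fin (m + n)) ℂ, IsUnit Ω →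
        Bound Ω (Nz (m + n)) (Hm (m + n) (QL (zb m β))).transpose G k δ D ((k - 1) * (dm m β + 1)) c M) ∧
      ∀ Ω : Matrix (Fin (m + n)) (Fin (m + n)) ℂ, IsUnit Ω → ∀ (s : ℕ) (ω : Fin s → ℂ),
        (∀ i j, IsAlgebraic (Algebra.adjoin ℚ (Set.range ω)) (Ω i j)) →
        ∃ (c : ℝ) (M₀ : ℕ), 0 < c ∧ ∀ M : ℕ, M₀ ≤ M →
          Bound Ω (Nz (m + n)) (Hm (m + n) (QL (zb m β))).transpose G k δ D (k * (dm m β + 1) - (s + 1)) c M := by
  have hQ := wq_zb m h
  have hrk := dm_le m h hd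
  obtain ⟨T, A, hT, hode⟩ := ode_Z hQ
  have hSH := sdc_zb m h
  obtain ⟨G, hG⟩ := result (m + n) T A (Nz (m + n)) (Hm (m + n) (QL (zb m β))).transpose (Wm (m + n) (QL (zb m β))).transpose
    hT (Nz_nil (m + n)) hode
    (fun i j => by
      rw [Matrix.transpose_apply, coeff_Hm, Hq_zero, Matrix.one_apply]
      simp only [eq_comm])
    (by rw [← Matrix.transpose_mul, Hm_mul_Wm hQ, Matrix.transpose_one])
    (fun i j => sdc_gcond (hSH j i)) (fun i j => sdc_gcond (sdc_Wm hSH j i))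
  refine ⟨G, fun k δ D => ?_⟩
  obtain ⟨h1, h2⟩ := hG k δ D
  refine ⟨?_, fun Ω hΩ s ω hω => ?_⟩
  · obtain ⟨c, M₀, hc0, hb⟩ := h1
    refine ⟨c, M₀, hc0, fun M hM Ω hΩ m' hm hsep K _ hK R S => ?_⟩
    exact TrdegGe.mono (Nat.mul_le_mul_left _ (by omega)) (hb M hM Ω hΩ m' hm hsep K hK R S)
  · obtain ⟨c, M₀, hc0, hb⟩ := h2 Ω hΩ s ω hω
    refine ⟨c, M₀, hc0, fun M hM m' hm hsep K _ hK R S => ?_⟩
    exact TrdegGe.mono (Nat.sub_le_sub_right (Nat.mul_le_mul_left _ (by omega)) _) (hb M hM m' hm hsep K hK R S)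

end Pool.Agent.E8helper53.MXH
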