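import Pool.Agent.E8helper53.HGM.Fin

/-!
# The hypergeometric system for arbitrary monic polynomials: the differential equation and the inverse matrix
-/

set_option autoImplicit false

open PowerSeries

namespace Pool.Agent.E8helper53.MXH

open Pool.Agent.Y119.HY Pool.Agent.E8helper53.HGM Pool.Agent.Results.MP_cbf1af_ag.AllTuplesDegenerating
open Pool.Agent.Y113 hiding Bm

/-- monic polynomials of degree `n` -/
structure WQ (n : ℕ) (Q : Polynomial ℚ) : Prop where
  two : 2 ≤ n
  monic : Q.Monic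
  deg : Q.natDegree = n

variable {n : ℕ} {Q : Polynomial ℚ}

lemma Bm_mul (k : ℕ) (hQ : WQ n Q) (i j : Fin n) : (Bm n Q * Hq n Q k) i j = if (i : ℕ) + 1 = n then
    PowerSeries.coeff (j : ℕ) (Polynomial.aeval (kx k) Q * aq n Q k) -
      PowerSeries.coeff (j : ℕ) (kx k ^ n * aq n Q k) else 0 := by
  rw [Matrix.mul_apply]
  unfold Bm
  simp only [Matrix.of_apply, ite_mul, zero_mul]
  split_ifs with h
  · have h1 : Polynomial.aeval (kx k) Q = ∑ l ∈ Finset.range n, PowerSeries.C (Q.coeff l) * kx k ^ l + kx k ^ n := by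
      rw [Polynomial.aeval_eq_sum_range, hQ.deg, Finset.sum_range_succ]
      have h2 : Q.coeff n = 1 := by
        rw [← hQ.deg]
        exact hQ.monic.coeff_natDegree
      rw [h2, one_smul]
      congr 1
      refine Finset.sum_congr rfl fun l _ => ?_
      rw [PowerSeries.smul_eq_C_mul]
    rw [h1, add_mul, map_add, add_sub_cancel_right, Finset.sum_mul, map_sum, Finset.sum_range]
    refine Finset.sum_congr rfl fun l _ => ?_
    rw [mul_assoc, PowerSeries.coeff_C_mul]
    rfl
  · exact Finset.sum_const_zero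

theorem step_q (hQ : WQ n Q) (k : ℕ) (i j : Fin n) :
    ((k : ℚ) + 1) * Hq n Q (k + 1) i j + ((Hq n Q (k + 1) * Am n) i j - (Am n * Hq n Q (k + 1)) i j) =
    (k : ℚ) * Hq n Q k i j + ((Hq n Q k * Am n) i j - (Am n * Hq n Q k) i j) + (Bm n Q * Hq n Q k) i j := by
  have e1 := lin_eq (n := n) (Q := Q) (k + 1) i j
  have e2 := lin_eq (n := n) (Q := Q) k i j
  push_cast at e1
  rw [add_sub_assoc', add_sub_assoc', e1, e2, Am_mul, Am_mul, Bm_mul k hQ]
  by_cases h : (i : ℕ) + 1 < n
  · rw [dif_pos h, dif_pos h, if_neg (by omega)]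
    unfold Hq hq
    simp only [Matrix.of_apply, sub_self, add_zero]
  · have h' : (i : ℕ) + 1 = n := by have := i.2; omega
    rw [dif_neg h, dif_neg h, if_pos h', h', sub_zero, sub_zero, add_sub_cancel, aq_succ]

lemma sol_c (hQ : WQ n Q) : Sol (cm (Am n)) (cm (Bm n Q)) (Hc n Q) := by
  refine ⟨?_, fun k => ?_⟩
  · unfold Hc
    rw [Hq_zero, cm_one]
  · ext i j
    have h := step_q hQ k i j
    unfold Hc
    rw [← cm_mul, ← cm_mul, ← cm_mul, ← cm_mul, ← cm_mul]
    simp only [Matrix.add_apply, Matrix.smul_apply, Matrix.sub_apply, smul_eq_mul, cm_apply]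
    exact_mod_cast h

theorem ode_H (hQ : WQ n Q) (i j : Fin n) : (1 - X) * Dm n Q i j = X * ∑ k, C (Bm n Q i k) * Hm n Q k j := by
  ext k
  rcases k with _ | k
  · rw [sub_mul, one_mul, map_sub, coeff_zero_X_mul, coeff_zero_X_mul, coeff_Dm, Hq_zero]
    simp
  · rw [sub_mul, one_mul, map_sub, coeff_succ_X_mul, coeff_succ_X_mul, coeff_Dm, coeff_Dm, map_sum]
    have h1 := step_q hQ k i j
    simp only [coeff_C_mul, coeff_Hm]
    rw [Matrix.mul_apply (M := Bm n Q)] at h1
    push_cast
    linear_combination h1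

/-- the determinant -/
theorem det_ode (hQ : WQ n Q) : (1 - X) * d⁄dX ℚ (Hm n Q).det = C (Q.coeff (n - 1)) * (Hm n Q).det := by
  have hn := hQ.two
  have hX : (X : ℚ⟦X⟧) ≠ 0 := X_ne_zero
  refine mul_left_cancel₀ hX ?_
  rw [H461R3.deriv_det]
  -- the matrix equation
  set H := Hm n Q with hH
  set DH : Matrix (Fin n) (Fin n) ℚ⟦X⟧ := H.map (d⁄dX ℚ) with hDH
  set A : Matrix (Fin n) (Fin n) ℚ⟦X⟧ := (Am n).map C with hA
  set B : Matrix (Fin n) (Fin n) ℚ⟦X⟧ := (Bm n Q).map C with hB
  have h1 : ((X : ℚ⟦X⟧) * (1 - X)) • DH = (1 - X : ℚ⟦X⟧) • (A * H) - (1 - X : ℚ⟦X⟧) • (H * A) + (X : ℚ⟦X⟧) • (B * H) := by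
    ext1 i j
    have h2 := ode_H hQ i j
    unfold Dm at h2
    simp only [Matrix.add_apply, Matrix.sub_apply, Matrix.smul_apply, smul_eq_mul, Matrix.mul_apply, hA, hB, hDH,
      Matrix.map_apply]
    rw [← hH] at h2
    linear_combination h2
  have h2 : (X : ℚ⟦X⟧) * ((1 - X) * (H.adjugate * DH).trace) = (H.adjugate * (((X : ℚ⟦X⟧) * (1 - X)) • DH)).trace := by
    rw [Matrix.mul_smul, Matrix.trace_smul, smul_eq_mul]
    ring
  have e1 : ∀ N : Matrix (Fin n) (Fin n) ℚ⟦X⟧, (H.adjugate * (N * H)).trace = H.det * N.trace := by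
    intro N
    rw [← Matrix.mul_assoc, Matrix.trace_mul_comm, ← Matrix.mul_assoc, Matrix.mul_adjugate, smul_mul_assoc, one_mul,
      Matrix.trace_smul, smul_eq_mul]
  have e2 : (H.adjugate * (H * A)).trace = H.det * A.trace := by
    rw [← Matrix.mul_assoc, Matrix.adjugate_mul, smul_mul_assoc, one_mul, Matrix.trace_smul, smul_eq_mul]
  have hAt : A.trace = 0 := by
    rw [Matrix.trace]
    refine Finset.sum_eq_zero fun i _ => ?_
    rw [Matrix.diag_apply, hA, Matrix.map_apply]
    unfold Am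
    rw [Matrix.of_apply, if_neg (by omega), map_zero]
  have hBt : B.trace = C (Q.coeff (n - 1)) := by
    rw [Matrix.trace, Finset.sum_eq_single ⟨n - 1, by omega⟩]
    · rw [Matrix.diag_apply, hB, Matrix.map_apply]
      unfold Bm
      rw [Matrix.of_apply, if_pos (by simp only; omega)]
    · intro i _ hi
      rw [Matrix.diag_apply, hB, Matrix.map_apply]
      unfold Bm
      rw [Matrix.of_apply, if_neg, map_zero]
      intro h
      exact hi (Fin.ext (by simp only; omega))
    · intro h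
      exact absurd (Finset.mem_univ _) h
  rw [h2, h1, Matrix.mul_add, Matrix.mul_sub, Matrix.mul_smul, Matrix.mul_smul, Matrix.mul_smul, Matrix.trace_add,
    Matrix.trace_sub, Matrix.trace_smul, Matrix.trace_smul, Matrix.trace_smul, e1, e2, e1, hAt, hBt]
  simp only [smul_eq_mul, mul_zero, sub_zero, zero_add]
  ring

lemma bn_det (hQ : WQ n Q) : bn (Q.coeff (n - 1)) * (Hm n Q).det = 1 := by
  have h1 : d⁄dX ℚ (bn (Q.coeff (n - 1)) * (Hm n Q).det) = 0 := by
    have hne : (1 - X : ℚ⟦X⟧) ≠ 0 := by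
      intro h
      have := congrArg (coeff 0) h
      simp at this
    refine (mul_eq_zero.1 (?_ : (1 - X : ℚ⟦X⟧) * _ = 0)).resolve_left hne
    rw [Derivation.leibniz, smul_eq_mul, smul_eq_mul]
    have h2 := bn_ode (Q.coeff (n - 1))
    have h3 := det_ode hQ
    linear_combination bn (Q.coeff (n - 1)) * h3 + (Hm n Q).det * h2
  have h2 : constantCoeff (bn (Q.coeff (n - 1)) * (Hm n Q).det) = 1 := by
    rw [map_mul]
    have h3 : constantCoeff (bn (Q.coeff (n - 1))) = 1 := by
      unfold bn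
      rw [← coeff_zero_eq_constantCoeff_apply, coeff_mk]
      simp
    have h4 : constantCoeff (Hm n Q).det = 1 := by
      have h5 : constantCoeff (Hm n Q).det = ((Hm n Q).map constantCoeff).det := RingHom.map_det _ _
      have h6 : (Hm n Q).map constantCoeff = 1 := by
        ext i j
        rw [Matrix.map_apply, ← coeff_zero_eq_constantCoeff_apply, coeff_Hm, Hq_zero]
      rw [h5, h6, Matrix.det_one]
    rw [h3, h4, one_mul]
  ext k
  rcases k with _ | k
  · rw [coeff_zero_eq_constantCoeff_apply, h2]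
    simp
  · have h3 := congrArg (coeff k) h1
    rw [coeff_derivative, map_zero] at h3
    have h4 : ((k : ℚ) + 1) ≠ 0 := by positivity
    rw [(mul_eq_zero.1 h3).resolve_right h4, coeff_one, if_neg (by omega)]

lemma Hm_mul_Wm (hQ : WQ n Q) : Hm n Q * Wm n Q = 1 := by
  unfold Wm
  rw [Matrix.mul_smul, Matrix.mul_adjugate, smul_smul, bn_det hQ, one_smul]

lemma SR_Hm (hQ : WQ n Q) (i j : Fin n) (r : ℝ) (h0 : 0 < r) (h1 : r < 1) : Y37.GF.SR r (Hm n Q i j) := by
  have h := ((sol_c hQ).growth Ac_nil i j).summable h0.le h1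
  unfold Y37.GF.SR
  refine h.congr fun k => ?_
  rw [coeff_Hm]
  unfold Hc
  rw [cm_apply]
  congr 1
  have e1 : ((Hq n Q k i j : ℚ) : ℂ) = (((Hq n Q k i j : ℚ) : ℝ) : ℂ) := by push_cast; rfl
  rw [e1, Complex.norm_real, Real.norm_eq_abs]

/-- the differential equation with integral coefficients -/
lemma ode_Z (hQ : WQ n Q) : ∃ (T : Polynomial ℤ) (A : Matrix (Fin n) (Fin n) (Polynomial ℤ)), T ≠ 0 ∧
    ∀ i j, toQ T * (X * PowerSeries.derivative ℚ ((Hm n Q).transpose i j) + ∑ k, C (Nz n i k : ℚ) * (Hm n Q).transpose k j) =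
      ∑ k, (Hm n Q).transpose i k * toQ (A k j) := by
  obtain ⟨b, c, hb, hc⟩ := exists_den Q n
  refine ⟨Polynomial.C (b : ℤ) * (1 - Polynomial.X), Matrix.of fun k j =>
    Polynomial.C ((b : ℤ) * (if (k : ℕ) = j + 1 then 1 else 0)) * (1 - Polynomial.X) +
      Polynomial.X * Polynomial.C (if (j : ℕ) + 1 = n then c k else 0), ?_, fun i j => ?_⟩
  · refine mul_ne_zero ?_ ?_
    · rw [Ne, Polynomial.C_eq_zero]
      exact_mod_cast hb.ne'
    · intro h
      have := congrArg (Polynomial.eval 0) h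
      simp at this
  · have h1 := ode_H hQ j i
    unfold Dm at h1
    have e1 : toQ (Polynomial.C (b : ℤ) * (1 - Polynomial.X)) = C (b : ℚ) * (1 - X) := by
      unfold toQ
      simp only [Polynomial.map_mul, Polynomial.map_C, Polynomial.map_sub, Polynomial.map_one,
          Polynomial.map_X, Polynomial.coe_mul, Polynomial.coe_C, Polynomial.coe_sub,
          Polynomial.coe_one, Polynomial.coe_X]
      congr 2
    have e2 : ∀ k : Fin n, toQ ((Matrix.of fun k j : Fin n =>
        Polynomial.C ((b : ℤ) * (if (k : ℕ) = j + 1 then 1 else 0)) * (1 - Polynomial.X) +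
        Polynomial.X * Polynomial.C (if (j : ℕ) + 1 = n then c k else 0)) k j) =
        C (b : ℚ) * (C (Am n j k) * (1 - X) + X * C (Pool.Agent.Y119.HY.Bm n Q j k)) := by
      intro k
      have h2 : (((if (j : ℕ) + 1 = n then c k else 0 : ℤ)) : ℚ) = b * Pool.Agent.Y119.HY.Bm n Q j k := by
        unfold Pool.Agent.Y119.HY.Bm
        rw [Matrix.of_apply]
        split_ifs
        · exact hc k k.2
        · simp
      have h3 : ((((b : ℤ) * (if (k : ℕ) = j + 1 then 1 else 0) : ℤ)) : ℚ) = b * Am n j k := by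
        unfold Am
        rw [Matrix.of_apply]
        split_ifs <;> simp
      rw [Matrix.of_apply]
      have h4 : toQ (Polynomial.C ((b : ℤ) * (if (k : ℕ) = j + 1 then 1 else 0)) * (1 - Polynomial.X) +
          Polynomial.X * Polynomial.C (if (j : ℕ) + 1 = n then c k else 0)) =
          C ((((b : ℤ) * (if (k : ℕ) = j + 1 then 1 else 0) : ℤ)) : ℚ) * (1 - X) +
            X * C (((if (j : ℕ) + 1 = n then c k else 0 : ℤ)) : ℚ) := by
        unfold toQ
        simp only [Polynomial.map_add, Polynomial.map_mul, Polynomial.map_C, Polynomial.map_sub, Polynomial.map_one,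
          Polynomial.map_X, Polynomial.coe_add, Polynomial.coe_mul, Polynomial.coe_C, Polynomial.coe_sub,
          Polynomial.coe_one, Polynomial.coe_X]
        rfl
      rw [h4, h2, h3, map_mul, map_mul]
      ring
    have e3 : ∑ k, C (Nz n i k : ℚ) * (Hm n Q).transpose k j = ∑ k, Hm n Q j k * C (Am n k i) := by
      refine Finset.sum_congr rfl fun k _ => ?_
      have h2 := congrFun (congrFun (Nz_map n) i) k
      rw [Matrix.map_apply, Matrix.transpose_apply] at h2
      have h3 : ((Nz n i k : ℤ) : ℚ) = Am n k i := h2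
      rw [h3, Matrix.transpose_apply, mul_comm]
    have e4 : ∑ k, (Hm n Q).transpose i k * toQ ((Matrix.of fun k j : Fin n =>
        Polynomial.C ((b : ℤ) * (if (k : ℕ) = j + 1 then 1 else 0)) * (1 - Polynomial.X) +
        Polynomial.X * Polynomial.C (if (j : ℕ) + 1 = n then c k else 0)) k j) =
        C (b : ℚ) * ((1 - X) * ∑ k, C (Am n j k) * Hm n Q k i + X * ∑ k, C (Pool.Agent.Y119.HY.Bm n Q j k) * Hm n Q k i) := by
      rw [Finset.mul_sum, Finset.mul_sum, ← Finset.sum_add_distrib, Finset.mul_sum]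
      refine Finset.sum_congr rfl fun k _ => ?_
      rw [e2, Matrix.transpose_apply]
      ring
    rw [e1, e3, e4, Matrix.transpose_apply]
    linear_combination C (b : ℚ) * h1

end Pool.Agent.E8helper53.MXH
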