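import Pool.Agent.E8helper43.MX.Grp
import Pool.Agent.E8helper53.MXH.Sys

/-!
# The infinitesimal transformations of the mixed systems
-/

set_option autoImplicit false

open Filter Topology Matrix Module

namespace Pool.Agent.E8helper53.MXH

open Pool.Agent.E8helper43.MX Pool.Agent.E8helper53.HGM
open Pool.Agent.E8helper43.HS (BD Eqv QL Hk An nq_An)
open Pool.Agent.Y119.HY (cm Am E E_zero Ac_nil Yf Gal HD Hq om om_eq om_self)

variable {m n : ℕ}

/-- the matrix `[0, B; 0, C]` -/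
def nb (B : Matrix (Fin m) (Fin n) ℂ) (C : Matrix (Fin n) (Fin n) ℂ) : Matrix (Fin (m + n)) (Fin (m + n)) ℂ := bt B C - bt 0 0

lemma ur_nb (B : Matrix (Fin m) (Fin n) ℂ) (C : Matrix (Fin n) (Fin n) ℂ) : ur (nb B C) = B := by
  have h1 : ur (nb B C) = ur (bt B C) - ur (bt 0 0) := rfl
  rw [h1, ur_bt, ur_bt, sub_zero]

lemma lr_nb (B : Matrix (Fin m) (Fin n) ℂ) (C : Matrix (Fin n) (Fin n) ℂ) : lr (nb B C) = C := by
  have h1 : lr (nb B C) = lr (bt B C) - lr (bt (0 : Matrix (Fin m) (Fin n) ℂ) 0) := rfl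
  rw [h1, lr_bt, lr_bt, sub_zero]

lemma ul_nb (B : Matrix (Fin m) (Fin n) ℂ) (C : Matrix (Fin n) (Fin n) ℂ) : ul (nb B C) = 0 := by
  have h1 : ul (nb B C) = ul (bt B C) - ul (bt (0 : Matrix (Fin m) (Fin n) ℂ) 0) := rfl
  rw [h1, ul_bt, ul_bt, sub_self]

lemma ll_nb (B : Matrix (Fin m) (Fin n) ℂ) (C : Matrix (Fin n) (Fin n) ℂ) : ll (nb B C) = 0 := by
  have h1 : ll (nb B C) = ll (bt B C) - ll (bt (0 : Matrix (Fin m) (Fin n) ℂ) 0) := rfl
  rw [h1, ll_bt, ll_bt, sub_self]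

lemma nb_add (B B' : Matrix (Fin m) (Fin n) ℂ) (C C' : Matrix (Fin n) (Fin n) ℂ) : nb (B + B') (C + C') = nb B C + nb B' C' := by
  apply blk_ext
  · have h1 : ul (nb B C + nb B' C') = ul (nb B C) + ul (nb B' C') := rfl
    rw [h1, ul_nb, ul_nb, ul_nb, add_zero]
  · have h1 : ur (nb B C + nb B' C') = ur (nb B C) + ur (nb B' C') := rfl
    rw [h1, ur_nb, ur_nb, ur_nb]
  · have h1 : ll (nb B C + nb B' C') = ll (nb B C) + ll (nb B' C') := rfl
    rw [h1, ll_nb, ll_nb, ll_nb, add_zero]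
  · have h1 : lr (nb B C + nb B' C') = lr (nb B C) + lr (nb B' C') := rfl
    rw [h1, lr_nb, lr_nb, lr_nb]

lemma nb_neg (B : Matrix (Fin m) (Fin n) ℂ) (C : Matrix (Fin n) (Fin n) ℂ) : nb (-B) (-C) = -nb B C := by
  apply blk_ext
  · have h1 : ul (-nb B C) = -ul (nb B C) := rfl
    rw [h1, ul_nb, ul_nb, neg_zero]
  · have h1 : ur (-nb B C) = -ur (nb B C) := rfl
    rw [h1, ur_nb, ur_nb]
  · have h1 : ll (-nb B C) = -ll (nb B C) := rfl
    rw [h1, ll_nb, ll_nb, neg_zero]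
  · have h1 : lr (-nb B C) = -lr (nb B C) := rfl
    rw [h1, lr_nb, lr_nb]

/-- the derivative of a curve -/
lemma HD_bt (B : Matrix (Fin m) (Fin n) ℂ) (C : Matrix (Fin n) (Fin n) ℂ) :
    HD (fun s : ℂ => bt (s • B) (1 + s • C)) (nb B C) 0 := by
  intro i j
  induction i using Fin.addCases with
  | left a =>
    induction j using Fin.addCases with
    | left b =>
      have h1 : ∀ s : ℂ, (bt (s • B) (1 + s • C)) (Fin.castAdd n a) (Fin.castAdd n b) = ul (bt (s • B) (1 + s • C)) a b :=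
        fun s => rfl
      have h2 : nb B C (Fin.castAdd n a) (Fin.castAdd n b) = ul (nb B C) a b := rfl
      rw [h2, ul_nb]
      simp only [h1, ul_bt]
      exact hasDerivAt_const _ _
    | right b =>
      have h1 : ∀ s : ℂ, (bt (s • B) (1 + s • C)) (Fin.castAdd n a) (Fin.natAdd m b) = s * B a b := by
        intro s
        have h2 : (bt (s • B) (1 + s • C)) (Fin.castAdd n a) (Fin.natAdd m b) = ur (bt (s • B) (1 + s • C)) a b := rfl
        rw [h2, ur_bt]
        rfl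
      have h2 : nb B C (Fin.castAdd n a) (Fin.natAdd m b) = ur (nb B C) a b := rfl
      rw [h2, ur_nb]
      simp only [h1]
      have h3 := (hasDerivAt_id (0 : ℂ)).mul_const (B a b)
      simpa using h3
  | right a =>
    induction j using Fin.addCases with
    | left b =>
      have h1 : ∀ s : ℂ, (bt (s • B) (1 + s • C)) (Fin.natAdd m a) (Fin.castAdd n b) = ll (bt (s • B) (1 + s • C)) a b :=
        fun s => rfl
      have h2 : nb B C (Fin.natAdd m a) (Fin.castAdd n b) = ll (nb B C) a b := rfl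
      rw [h2, ll_nb]
      simp only [h1, ll_bt]
      exact hasDerivAt_const _ _
    | right b =>
      have h1 : ∀ s : ℂ, (bt (s • B) (1 + s • C)) (Fin.natAdd m a) (Fin.natAdd m b) = (1 : Matrix (Fin n) (Fin n) ℂ) a b + s * C a b := by
        intro s
        have h2 : (bt (s • B) (1 + s • C)) (Fin.natAdd m a) (Fin.natAdd m b) = lr (bt (s • B) (1 + s • C)) a b := rfl
        rw [h2, lr_bt]
        rfl
      have h2 : nb B C (Fin.natAdd m a) (Fin.natAdd m b) = lr (nb B C) a b := rfl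
      rw [h2, lr_nb]
      simp only [h1]
      have h3 := ((hasDerivAt_id (0 : ℂ)).mul_const (C a b)).const_add ((1 : Matrix (Fin n) (Fin n) ℂ) a b)
      simpa using h3

/-- the solution -/
noncomputable abbrev Sy (m : ℕ) {n : ℕ} (β : Fin n → ℚ) : ℂ → Matrix (Fin (m + n)) (Fin (m + n)) ℂ :=
  Yf (cm (Am (m + n))) (Hk (Hq (m + n) (QL (zb m β))))

lemma mem_gal (m : ℕ) {β : Fin n → ℚ} (h : BD β) (hd : (¬ Eqv β fun j => -β j) ∨ Sym β) {g : Matrix (Fin (m + n)) (Fin (m + n)) ℂ}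
    (hg : g ∈ Gm m β) : g ∈ Gal (Sy m β) := by
  have h1 := Gm_gal m h hd hg 0
  rw [nq_An, neg_zero, E_zero Ac_nil, one_mul, mul_one] at h1
  exact h1

/-- tangent vectors -/
lemma nb_mem (m : ℕ) {β : Fin n → ℚ} (h : BD β) (hd : (¬ Eqv β fun j => -β j) ∨ Sym β) (B : Matrix (Fin m) (Fin n) ℂ)
    {C : Matrix (Fin n) (Fin n) ℂ} (hC : ∀ s : ℂ, 1 + s • C ∈ Cls β) : nb B C ∈ Lie (Sy m β) := by
  refine curve_mem (HD_bt B C) ?_ (Filter.Eventually.of_forall fun s => mem_gal m h hd ⟨ul_bt _ _, ll_bt _ _, ?_⟩)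
  · show bt ((0 : ℂ) • B) (1 + (0 : ℂ) • C) = 1
    rw [zero_smul, zero_smul, add_zero, bt_one]
  · rw [lr_bt]
    exact hC s

/-- counting -/
lemma fin_ge {L : Submodule ℂ (Matrix (Fin (m + n)) (Fin (m + n)) ℂ)} {ι : Type} [Fintype ι]
    (M : ι → Matrix (Fin n) (Fin n) ℂ) (hM : ∀ c : ι → ℂ, ∑ x, c x • M x = 0 → c = 0) (h1 : ∀ B, nb B 0 ∈ L)
    (h2 : ∀ i, nb 0 (M i) ∈ L) : m * n + Fintype.card ι ≤ finrank ℂ L := by
  classical
  set v : (Fin m × Fin n) ⊕ ι → L := Sum.elim (fun p => ⟨nb (Matrix.single p.1 p.2 1) 0, h1 _⟩) fun i => ⟨nb 0 (M i), h2 i⟩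
    with hv
  have hcard : Fintype.card ((Fin m × Fin n) ⊕ ι) = m * n + Fintype.card ι := by
    rw [Fintype.card_sum, Fintype.card_prod, Fintype.card_fin, Fintype.card_fin]
  rw [← hcard]
  refine LinearIndependent.fintype_card_le_finrank (b := v) ?_
  rw [Fintype.linearIndependent_iff]
  intro c hc
  have h3 := congrArg (fun w : L => (w : Matrix (Fin (m + n)) (Fin (m + n)) ℂ)) hc
  simp only [Submodule.coe_add, Submodule.coe_sum, Submodule.coe_smul, Submodule.coe_zero, Fintype.sum_sum_type, hv, Sum.elim_inl,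
    Sum.elim_inr] at h3
  let U : Matrix (Fin (m + n)) (Fin (m + n)) ℂ →ₗ[ℂ] Matrix (Fin m) (Fin n) ℂ :=
    { toFun := ur, map_add' := fun _ _ => rfl, map_smul' := fun _ _ => rfl }
  let W : Matrix (Fin (m + n)) (Fin (m + n)) ℂ →ₗ[ℂ] Matrix (Fin n) (Fin n) ℂ :=
    { toFun := lr, map_add' := fun _ _ => rfl, map_smul' := fun _ _ => rfl }
  have hU : ∀ (B : Matrix (Fin m) (Fin n) ℂ) (C : Matrix (Fin n) (Fin n) ℂ), U (nb B C) = B := ur_nb
  have hW : ∀ (B : Matrix (Fin m) (Fin n) ℂ) (C : Matrix (Fin n) (Fin n) ℂ), W (nb B C) = C := lr_nb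
  have h4 := congrArg U h3
  have h5 := congrArg W h3
  simp only [map_add, map_sum, map_smul, hU, smul_zero, Finset.sum_const_zero, add_zero, map_zero] at h4
  simp only [map_add, map_sum, map_smul, hW, smul_zero, Finset.sum_const_zero, zero_add, map_zero] at h5
  rintro (⟨a, b⟩ | i)
  · have h6 := congrFun (congrFun h4 a) b
    rw [Matrix.sum_apply, Finset.sum_eq_single (a, b)] at h6
    · simpa using h6
    · rintro ⟨a', b'⟩ _ hne
      rw [Matrix.smul_apply, Matrix.single_apply_of_ne, smul_zero]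
      rintro ⟨h7, h8⟩
      exact hne (Prod.ext h7 h8)
    · intro h7
      exact absurd (Finset.mem_univ _) h7
  · exact congrFun (hM _ h5) i

lemma det_tr {x φ : Fin n → ℂ} (h : φ ⬝ᵥ x = 0) (s : ℂ) : (1 + s • vecMulVec x φ).det = 1 := by
  have h1 : s • vecMulVec x φ = replicateCol Unit (s • x) * replicateRow Unit φ := by
    rw [← smul_vecMulVec, vecMulVec_eq Unit]
  rw [h1, det_one_add_replicateCol_mul_replicateRow, dotProduct_smul, h, smul_zero, add_zero]

/-- **the linear case** -/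
theorem dim_SL (m : ℕ) {β : Fin n → ℚ} (h : BD β) (hd : (¬ Eqv β fun j => -β j) ∨ Sym β) (hns : ¬ Sym β) :
    m * n + (n * n - 1) ≤ finrank ℂ (Lie (Sy m β)) := by
  classical
  have hn := h.two
  have hC : ∀ x φ : Fin n → ℂ, φ ⬝ᵥ x = 0 → nb (0 : Matrix (Fin m) (Fin n) ℂ) (vecMulVec x φ) ∈ Lie (Sy m β) :=
    fun x φ h0 => nb_mem m h hd 0 fun s => ⟨det_tr h0 s, fun hs => absurd hs hns⟩
  have hB : ∀ B : Matrix (Fin m) (Fin n) ℂ, nb B 0 ∈ Lie (Sy m β) := fun B => nb_mem m h hd B fun s => by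
    rw [smul_zero, add_zero]
    exact ⟨det_one, fun hs => absurd hs hns⟩
  set i₀ : Fin n := ⟨0, by omega⟩ with hi₀
  have hoff : ∀ i j : Fin n, i ≠ j → nb (0 : Matrix (Fin m) (Fin n) ℂ) (Matrix.single i j 1) ∈ Lie (Sy m β) := by
    intro i j hij
    have h1 := hC (Pi.single i 1) (Pi.single j 1) (by
      rw [dotProduct_single, mul_one, Pi.single_eq_of_ne hij])
    have h2 : vecMulVec (Pi.single i (1 : ℂ)) (Pi.single j 1) = Matrix.single i j (1 : ℂ) := by
      rw [Matrix.single_eq_single_vecMulVec_single]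
    rwa [h2] at h1
  have hdg : ∀ i : Fin n, i ≠ i₀ → nb (0 : Matrix (Fin m) (Fin n) ℂ) (Matrix.single i i 1 - Matrix.single i₀ i₀ 1) ∈ Lie (Sy m β) := by
    intro i hi
    have h1 := hC (Pi.single i 1 + Pi.single i₀ 1) (Pi.single i 1 - Pi.single i₀ 1) (by
      rw [sub_dotProduct, dotProduct_add, dotProduct_add, dotProduct_single, dotProduct_single, dotProduct_single,
        dotProduct_single, Pi.single_eq_same, Pi.single_eq_same, Pi.single_eq_of_ne hi, Pi.single_eq_of_ne (Ne.symm hi)]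
      ring)
    have h2 : vecMulVec (Pi.single i (1 : ℂ) + Pi.single i₀ 1) (Pi.single i 1 - Pi.single i₀ 1) =
        Matrix.single i i (1 : ℂ) - Matrix.single i i₀ 1 + (Matrix.single i₀ i 1 - Matrix.single i₀ i₀ 1) := by
      rw [add_vecMulVec, vecMulVec_sub, vecMulVec_sub]
      simp only [Matrix.single_eq_single_vecMulVec_single]
    rw [h2] at h1
    have h3 := (Lie (Sy m β)).add_mem (hoff i i₀ hi) (neg_mem (hoff i₀ i (Ne.symm hi)))
    have h4 := (Lie (Sy m β)).add_mem h1 h3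
    rw [← nb_neg, ← nb_add, ← nb_add] at h4
    have e1 : (Matrix.single i i (1 : ℂ) - Matrix.single i i₀ 1 + (Matrix.single i₀ i 1 - Matrix.single i₀ i₀ 1)) +
        (Matrix.single i i₀ 1 + -Matrix.single i₀ i 1) = Matrix.single i i (1 : ℂ) - Matrix.single i₀ i₀ 1 := by abel
    rw [e1] at h4
    simpa using h4
  rw [← card_ne_pair i₀]
  refine fin_ge (fun x : {x : Fin n × Fin n // x ≠ (i₀, i₀)} => if x.1.1 = x.1.2 then
      Matrix.single x.1.1 x.1.1 1 - Matrix.single i₀ i₀ 1 else Matrix.single x.1.1 x.1.2 1) (fun c hc => ?_) hB fun x => ?_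
  · have hkey : ∀ x y : {x : Fin n × Fin n // x ≠ (i₀, i₀)}, (if y.1.1 = y.1.2 then
        (Matrix.single y.1.1 y.1.1 1 - Matrix.single i₀ i₀ 1 : Matrix (Fin n) (Fin n) ℂ) else Matrix.single y.1.1 y.1.2 1) x.1.1 x.1.2 =
        if y = x then 1 else 0 := by
      rintro ⟨⟨a, b⟩, hx⟩ ⟨⟨a', b'⟩, hy⟩
      simp only [Subtype.mk.injEq, Prod.mk.injEq, ne_eq] at hx hy ⊢
      by_cases h1 : a' = b'
      · rw [if_pos h1, Matrix.sub_apply, Matrix.single_apply, Matrix.single_apply]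
        rw [if_neg (c := i₀ = a ∧ i₀ = b) (by
          rintro ⟨h2, h3⟩
          exact hx ⟨h2.symm, h3.symm⟩), sub_zero, ← h1]
      · rw [if_neg h1, Matrix.single_apply]
    funext x
    have h1 := congrFun (congrFun hc x.1.1) x.1.2
    rw [Matrix.sum_apply] at h1
    simp only [Matrix.smul_apply, hkey, smul_eq_mul, mul_ite, mul_one, mul_zero, Finset.sum_ite_eq', Finset.sum_ite_eq,
      Finset.mem_univ, if_true, Matrix.zero_apply] at h1
    exact h1
  · obtain ⟨⟨a, b⟩, hx⟩ := x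
    simp only
    by_cases h1 : a = b
    · rw [if_pos h1]
      refine hdg a fun h2 => hx ?_
      rw [← h1, h2]
    · rw [if_neg h1]
      exact hoff a b h1

/-- **the symplectic case** -/
theorem dim_SP (m : ℕ) {β : Fin n → ℚ} (h : BD β) (hs : Sym β) :
    m * n + n * (n + 1) / 2 ≤ finrank ℂ (Lie (Sy m β)) := by
  classical
  have hQ := qd_of h hs
  have hJ : (Jc β).transpose = -Jc β := Pool.Agent.Y119.HY.Jc_skew hQ
  have hdet : (Jc β).det ≠ 0 := Pool.Agent.Y119.HY.Jc_det hQ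
  have hC : ∀ x : Fin n → ℂ, nb (0 : Matrix (Fin m) (Fin n) ℂ) (vecMulVec x x * Jc β) ∈ Lie (Sy m β) := by
    intro x
    set ω := x ᵥ* Jc β with hω
    have hJv : Jc β *ᵥ x = -ω := by rw [hω, ← mulVec_transpose, hJ, neg_mulVec, neg_neg]
    have hωx : ω ⬝ᵥ x = 0 := by
      have h1 := om_self hJ x
      rw [om_eq] at h1
      exact h1
    rw [vecMulVec_mul, ← hω]
    refine nb_mem m h (Or.inr hs) 0 fun s => ⟨det_tr hωx s, fun _ => ?_⟩
    rw [transpose_add, transpose_one, transpose_smul, transpose_vecMulVec, add_mul, one_mul, smul_mul_assoc, vecMulVec_mul,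
      ← hω, mul_add, mul_one, add_mul, mul_smul_comm, mul_vecMulVec, hJv, smul_mul_assoc, mul_smul_comm,
      vecMulVec_mul_vecMulVec, hωx, zero_smul, vecMulVec_zero, smul_zero, smul_zero, add_zero, neg_vecMulVec, smul_neg]
    abel
  have hpol : ∀ x y : Fin n → ℂ, nb (0 : Matrix (Fin m) (Fin n) ℂ) ((vecMulVec x y + vecMulVec y x) * Jc β) ∈ Lie (Sy m β) := by
    intro x y
    have h1 := (Lie (Sy m β)).add_mem (hC (x + y)) ((Lie (Sy m β)).add_mem (neg_mem (hC x)) (neg_mem (hC y)))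
    rw [← nb_neg, ← nb_neg, ← nb_add, ← nb_add] at h1
    have e1 : vecMulVec (x + y) (x + y) * Jc β + (-(vecMulVec x x * Jc β) + -(vecMulVec y y * Jc β)) =
        (vecMulVec x y + vecMulVec y x) * Jc β := by
      rw [← neg_mul, ← neg_mul, ← add_mul, ← add_mul]
      congr 1
      rw [add_vecMulVec, vecMulVec_add, vecMulVec_add]
      abel
    rw [e1] at h1
    simpa using h1
  have hB : ∀ B : Matrix (Fin m) (Fin n) ℂ, nb B 0 ∈ Lie (Sy m β) := fun B => nb_mem m h (Or.inr hs) B fun s => by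
    rw [smul_zero, add_zero]
    exact ⟨det_one, fun _ => by rw [transpose_one, one_mul, mul_one]⟩
  rw [← (card_le_pairs n).2]
  refine fin_ge (fun x : {x : Fin n × Fin n // x.1 ≤ x.2} =>
    (Matrix.single x.1.1 x.1.2 1 + Matrix.single x.1.2 x.1.1 1) * Jc β) (fun c hc => ?_) hB fun x => ?_
  · have h1 : (∑ x : {x : Fin n × Fin n // x.1 ≤ x.2}, c x • (Matrix.single x.1.1 x.1.2 (1 : ℂ) + Matrix.single x.1.2 x.1.1 1)) = 0 := by
      have h2 : (∑ x : {x : Fin n × Fin n // x.1 ≤ x.2}, c x • (Matrix.single x.1.1 x.1.2 (1 : ℂ) + Matrix.single x.1.2 x.1.1 1)) *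
          Jc β = 0 := by
        rw [Finset.sum_mul, ← hc]
        refine Finset.sum_congr rfl fun x _ => ?_
        rw [smul_mul_assoc]
      calc _ = (∑ x : {x : Fin n × Fin n // x.1 ≤ x.2}, c x • (Matrix.single x.1.1 x.1.2 (1 : ℂ) + Matrix.single x.1.2 x.1.1 1)) *
            Jc β * (Jc β)⁻¹ := by rw [Matrix.mul_assoc, mul_nonsing_inv _ (Ne.isUnit hdet), mul_one]
        _ = 0 := by rw [h2, zero_mul]
    funext x
    have h2 := congrFun (congrFun h1 x.1.1) x.1.2
    rw [Matrix.sum_apply, Finset.sum_eq_single x] at h2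
    · rw [Matrix.smul_apply, Matrix.add_apply, Matrix.single_apply_same, Matrix.zero_apply, smul_eq_mul, Matrix.single_apply] at h2
      refine (mul_eq_zero.1 h2).resolve_right ?_
      split_ifs
      · norm_num
      · norm_num
    · intro y _ hy
      rw [Matrix.smul_apply, Matrix.add_apply, Matrix.single_apply_of_ne, Matrix.single_apply_of_ne, add_zero, smul_zero]
      · rintro ⟨h3, h4⟩
        have h5 := x.2
        have h6 := y.2
        have h7 : y.1.1 = y.1.2 := le_antisymm h6 (by rw [h3, h4]; exact h5)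
        exact hy (Subtype.ext (Prod.ext (h7.trans h3) (h7.symm.trans h4)))
      · rintro ⟨h3, h4⟩
        exact hy (Subtype.ext (Prod.ext h3 h4))
    · intro h3
      exact absurd (Finset.mem_univ _) h3
  · have h1 := hpol (Pi.single x.1.1 1) (Pi.single x.1.2 1)
    simpa only [← Matrix.single_eq_single_vecMulVec_single] using h1

end Pool.Agent.E8helper53.MXH
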